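import Mathlib
import Pool.Agent.TH427.BEx

/-!
For every infinite set `S` there is an admissible system of pre-independence spaces on the subsets
of `S` which contains all independence spaces, is closed under arbitrary direct sums, and does not
contain all B-matroids on `S`: take all B-matroids in which every infinite circuit is disjoint from
every infinite cocircuit.
-/

set_option autoImplicit false

namespace Pool.Agent.Results.MP_cb2a9f_co.NotOnlyBMatroids

open Pool.Agent.TH427.BM

/-- Q1 fails for every infinite set `S`, even for systems closed under arbitrary direct sums. -/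
theorem result (S : Type) [Infinite S] :
    ∃ 𝓓 : Set S → Set (Set (Set S)), Admissible 𝓓 ∧
      (∀ W 𝓘, IndependenceSpace W 𝓘 → 𝓘 ∈ 𝓓 W) ∧ ClosedUnderSums 𝓓 ∧
      ∃ 𝓘, BMatroid Set.univ 𝓘 ∧ 𝓘 ∉ 𝓓 Set.univ :=
  main S

end Pool.Agent.Results.MP_cb2a9f_co.NotOnlyBMatroids
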